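import Pool.Agent.Helper72.OA.Core

/-!
Area of the starlike region swept by `c + t F(e^{iy})`.
-/

open Complex Metric Set MeasureTheory

namespace Pool.Agent.Helper72.OA

/-- the boundary curve -/
noncomputable def gam (p : ℂ → ℂ) (y : ℝ) : ℂ := Ff p (exp (y * I))

/-- its derivative -/
noncomputable def gam' (p p' : ℂ → ℂ) (y : ℝ) : ℂ :=
  I * exp (y * I) * (p (exp (y * I))⁻¹ - (exp (y * I))⁻¹ * p' (exp (y * I))⁻¹)

theorem norm_exp_I (y : ℝ) : ‖exp ((y:ℂ) * I)‖ = 1 := Complex.norm_exp_ofReal_mul_I y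

variable {p p' : ℂ → ℂ}

theorem Good.hasDerivAt_Ff (G : Good p p') {x : ℂ} (hx : x ≠ 0) :
    HasDerivAt (Ff p) (p x⁻¹ - x⁻¹ * p' x⁻¹) x := by
  have h1 : HasDerivAt (fun x : ℂ => p x⁻¹) (p' x⁻¹ * (-(x ^ 2)⁻¹)) x :=
    (G.hp x⁻¹).comp x (hasDerivAt_inv hx)
  have h2 := (hasDerivAt_id x).mul h1
  have h3 : p x⁻¹ - x⁻¹ * p' x⁻¹ = 1 * p x⁻¹ + id x * (p' x⁻¹ * (-(x ^ 2)⁻¹)) := by
    simp only [id]
    field_simp
    ring
  rw [h3]
  exact h2

theorem Good.hasDerivAt_gam (G : Good p p') (y : ℝ) :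
    HasDerivAt (gam p) (gam' p p' y) y := by
  have h1 : HasDerivAt (fun y : ℝ => exp ((y : ℂ) * I)) (exp (y * I) * (1 * I)) y := by
    have h0 : HasDerivAt (fun y : ℝ => (y : ℂ) * I) (1 * I) y :=
      (Complex.ofRealCLM.hasDerivAt (x := y)).mul_const I
    exact h0.cexp
  have h2 := (G.hasDerivAt_Ff (Complex.exp_ne_zero (y * I))).scomp y h1
  have h3 : gam' p p' y = (exp (y * I) * (1 * I)) • (p (exp (y * I))⁻¹ - (exp (y * I))⁻¹ *
      p' (exp (y * I))⁻¹) := by
    rw [gam', smul_eq_mul]; ring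
  rw [h3]
  exact h2

/-- density -/
noncomputable def dens (p p' : ℂ → ℂ) (y : ℝ) : ℝ :=
  ((p (exp (-(y * I))) - exp (-(y * I)) * p' (exp (-(y * I)))) *
    (starRingEnd ℂ) (p (exp (-(y * I))))).re

theorem norm_exp_neg_I (y : ℝ) : ‖exp (-((y:ℂ) * I))‖ = 1 := by
  have := Complex.norm_exp_ofReal_mul_I (-y)
  simpa using this

theorem Good.dens_pos (G : Good p p') (y : ℝ) : 0 < dens p p' y := G.h2 _ (norm_exp_neg_I y)

theorem Good.continuous_dens (G : Good p p') : Continuous (dens p p') := by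
  have h1 : Continuous p := G.diff.continuous
  have h2 : Continuous p' := G.hp'.continuous
  unfold dens
  apply Complex.continuous_re.comp
  have h3 : Continuous (fun y : ℝ => exp (-((y:ℂ) * I))) := by fun_prop
  exact ((h1.comp h3).sub (h3.mul (h2.comp h3))).mul
    (Complex.continuous_conj.comp (h1.comp h3))

theorem im_gam (y : ℝ) : ((starRingEnd ℂ) (gam p y) * gam' p p' y).im = dens p p' y := by
  have h1 : (exp ((y:ℂ) * I))⁻¹ = exp (-(y * I)) := (Complex.exp_neg _).symm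
  have h2 : (starRingEnd ℂ) (exp ((y:ℂ) * I)) * exp (y * I) = 1 := by
    rw [mul_comm, Complex.mul_conj, Complex.normSq_eq_norm_sq, norm_exp_I]; simp
  have h3 : (starRingEnd ℂ) (gam p y) * gam' p p' y =
      I * ((p (exp (-(y * I))) - exp (-(y * I)) * p' (exp (-(y * I)))) *
    (starRingEnd ℂ) (p (exp (-(y * I))))) := by
    rw [gam, gam', Ff, h1, map_mul]
    linear_combination (I * (p (exp (-(y * I))) - exp (-(y * I)) * p' (exp (-(y * I)))) *
      (starRingEnd ℂ) (p (exp (-(y * I))))) * h2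
  rw [h3, Complex.I_mul_im, dens]

/-- the polar parametrisation -/
noncomputable def Psi (p : ℂ → ℂ) (c : ℂ) (z : ℂ) : ℂ := c + (z.re : ℂ) * gam p z.im

/-- its derivative -/
noncomputable def Psi' (p p' : ℂ → ℂ) (z : ℂ) : ℂ →L[ℝ] ℂ :=
  Complex.reCLM.smulRight (gam p z.im) + Complex.imCLM.smulRight ((z.re : ℂ) * gam' p p' z.im)

theorem Good.hasFDerivAt_Psi (G : Good p p') (c z : ℂ) :
    HasFDerivAt (Psi p c) (Psi' p p' z) z := by
  have h1 : HasFDerivAt (fun z : ℂ => (z.re : ℂ)) (Complex.ofRealCLM.comp Complex.reCLM) z :=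
    (Complex.ofRealCLM.comp Complex.reCLM).hasFDerivAt
  have h2 : HasFDerivAt (fun z : ℂ => gam p z.im)
      ((ContinuousLinearMap.toSpanSingleton ℝ (gam' p p' z.im)).comp Complex.imCLM) z :=
    (G.hasDerivAt_gam z.im).hasFDerivAt.comp z Complex.imCLM.hasFDerivAt
  have h3 := (h1.mul h2).const_add c
  have h4 : Psi' p p' z = (z.re : ℂ) • ((ContinuousLinearMap.toSpanSingleton ℝ
      (gam' p p' z.im)).comp Complex.imCLM) + gam p z.im •
      (Complex.ofRealCLM.comp Complex.reCLM) := by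
    ext v
    simp [Psi']
    ring
  rw [h4]
  exact h3

theorem det_Psi' (z : ℂ) : (Psi' p p' z).det = z.re * dens p p' z.im := by
  rw [← im_gam, ContinuousLinearMap.det, ← LinearMap.det_toMatrix Complex.basisOneI,
    Matrix.det_fin_two]
  simp only [LinearMap.toMatrix_apply, Psi', Complex.coe_basisOneI, Complex.coe_basisOneI_repr]
  simp
  ring

/-- the parameter domain -/
def Ubox : Set ℂ := Ioo 0 1 ×ℂ Ioo (-Real.pi) Real.pi

theorem measurableSet_Ubox : MeasurableSet Ubox :=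
  (isOpen_Ioo.reProdIm isOpen_Ioo).measurableSet

theorem Good.injOn_Psi (G : Good p p') (c : ℂ) : InjOn (Psi p c) Ubox := by
  intro z hz w hw h
  have hz1 := hz.1
  have hz2 := hz.2
  have hw1 := hw.1
  have hw2 := hw.2
  simp only [mem_preimage] at hz1 hz2 hw1 hw2
  have h1 : (z.re : ℂ) * Ff p (exp (z.im * I)) = (w.re : ℂ) * Ff p (exp (w.im * I)) :=
    add_left_cancel h
  have h2 := G.param_inj hz1.1 hw1.1 hz2 hw2 h1
  exact Complex.ext h2.1 h2.2

theorem Good.volume_Psi (G : Good p p') (c : ℂ) :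
    volume (Psi p c '' Ubox) = ENNReal.ofReal (1 / 2 * ∫ y in (-Real.pi)..Real.pi, dens p p' y) := by
  rw [← MeasureTheory.lintegral_abs_det_fderiv_eq_addHaar_image volume measurableSet_Ubox
    (fun z _ => (G.hasFDerivAt_Psi c z).hasFDerivWithinAt) (G.injOn_Psi c)]
  have h1 : ∫⁻ z in Ubox, ENNReal.ofReal |(Psi' p p' z).det| =
      ∫⁻ z in Ubox, ENNReal.ofReal (z.re) * ENNReal.ofReal (dens p p' z.im) := by
    apply setLIntegral_congr_fun measurableSet_Ubox
    intro z hz
    have hz1 : 0 < z.re := hz.1.1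
    simp only
    rw [det_Psi', abs_of_pos (mul_pos hz1 (G.dens_pos _)), ENNReal.ofReal_mul hz1.le]
  rw [h1]
  have h2 : ∫⁻ z in Ubox, ENNReal.ofReal (z.re) * ENNReal.ofReal (dens p p' z.im) =
      ∫⁻ q in Ioo (0:ℝ) 1 ×ˢ Ioo (-Real.pi) Real.pi,
        ENNReal.ofReal q.1 * ENNReal.ofReal (dens p p' q.2) := by
    have hmp := Complex.volume_preserving_equiv_real_prod
    have := hmp.setLIntegral_comp_preimage (s := Ioo (0:ℝ) 1 ×ˢ Ioo (-Real.pi) Real.pi)
      (measurableSet_Ioo.prod measurableSet_Ioo)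
      (f := fun q : ℝ × ℝ => ENNReal.ofReal q.1 * ENNReal.ofReal (dens p p' q.2))
      (by
        have := G.continuous_dens.measurable
        fun_prop)
    rw [← this]
    rfl
  rw [h2, Measure.volume_eq_prod, ← Measure.prod_restrict,
    lintegral_prod_mul (f := fun x : ℝ => ENNReal.ofReal x)
      (g := fun y : ℝ => ENNReal.ofReal (dens p p' y)) (by fun_prop)
      (by have := G.continuous_dens.measurable
          fun_prop)]
  have h3 : ∫⁻ x in Ioo (0:ℝ) 1, ENNReal.ofReal x = ENNReal.ofReal (1 / 2) := by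
    rw [← ofReal_integral_eq_lintegral_ofReal]
    · congr 1
      rw [← integral_Ioc_eq_integral_Ioo, ← intervalIntegral.integral_of_le zero_le_one]
      simp
    · exact (continuous_id.integrableOn_Icc (a := (0:ℝ)) (b := 1)).mono_set Ioo_subset_Icc_self
    · exact (ae_restrict_mem measurableSet_Ioo).mono (fun x hx => hx.1.le)
  have h4 : ∫⁻ y in Ioo (-Real.pi) Real.pi, ENNReal.ofReal (dens p p' y) =
      ENNReal.ofReal (∫ y in (-Real.pi)..Real.pi, dens p p' y) := by
    rw [← ofReal_integral_eq_lintegral_ofReal]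
    · congr 1
      rw [intervalIntegral.integral_of_le (by linarith [Real.pi_pos]),
        integral_Ioc_eq_integral_Ioo]
    · exact (G.continuous_dens.integrableOn_Icc).mono_set Ioo_subset_Icc_self
    · exact Filter.Eventually.of_forall (fun y => (G.dens_pos y).le)
  rw [h3, h4, ← ENNReal.ofReal_mul (by norm_num)]

theorem Good.measurableSet_image (G : Good p p') (c : ℂ) : MeasurableSet (Psi p c '' Ubox) :=
  MeasureTheory.measurable_image_of_fderivWithin measurableSet_Ubox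
    (fun z _ => (G.hasFDerivAt_Psi c z).hasFDerivWithinAt) (G.injOn_Psi c)

end Pool.Agent.Helper72.OA
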