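import Mathlib

/-!
Starlikeness of the complement of the image of the exterior of the unit disk under
`F ξ = ξ p(1/ξ)`, from two sign conditions on the unit circle.
-/

open Complex Metric Set MeasureTheory

namespace Pool.Agent.Helper72.OA

/-- positivity of the real part propagates from the circle to the disk -/
theorem re_pos_of_sphere {g : ℂ → ℂ} (hg : DiffContOnCl ℂ g (ball 0 1))
    (h : ∀ w, ‖w‖ = 1 → 0 < (g w).re) : ∀ w, ‖w‖ ≤ 1 → 0 < (g w).re := by
  have hc : IsCompact (sphere (0:ℂ) 1) := isCompact_sphere 0 1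
  have hgc : ContinuousOn g (closedBall 0 1) := by
    have := hg.continuousOn
    rwa [closure_ball (0:ℂ) one_ne_zero] at this
  have hcont : ContinuousOn (fun w => (g w).re) (sphere (0:ℂ) 1) :=
    Complex.continuous_re.comp_continuousOn (hgc.mono sphere_subset_closedBall)
  obtain ⟨w0, hw0, hmin⟩ := hc.exists_isMinOn ⟨1, by simp⟩ hcont
  have hw0' : ‖w0‖ = 1 := by simpa using hw0
  have hm := h w0 hw0'
  intro w hw
  have h1 : DiffContOnCl ℂ (fun w => exp (-(g w))) (ball 0 1) := by
    refine ⟨(hg.differentiableOn.neg).cexp, ?_⟩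
    exact Complex.continuous_exp.comp_continuousOn hg.continuousOn.neg
  have h2 : ‖exp (-(g w))‖ ≤ Real.exp (-(g w0).re) := by
    refine Complex.norm_le_of_forall_mem_frontier_norm_le isBounded_ball h1 ?_ ?_
    · intro z hz
      rw [frontier_ball (0:ℂ) one_ne_zero] at hz
      rw [Complex.norm_exp, Complex.neg_re]
      apply Real.exp_le_exp.mpr
      have := hmin hz
      simp only [Set.mem_ofPred_eq] at this
      linarith
    · rw [closure_ball (0:ℂ) one_ne_zero]
      simpa using hw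
  rw [Complex.norm_exp, Complex.neg_re] at h2
  have := Real.exp_le_exp.mp h2
  linarith

/-- the hypotheses on the polynomial `p` -/
structure Good (p p' : ℂ → ℂ) : Prop where
  hp : ∀ w, HasDerivAt p (p' w) w
  hp' : Differentiable ℂ p'
  h3 : ∀ w, ‖w‖ = 1 → 0 < (p w).re
  h2 : ∀ w, ‖w‖ = 1 → 0 < ((p w - w * p' w) * (starRingEnd ℂ) (p w)).re

variable {p p' : ℂ → ℂ}

theorem Good.diff (G : Good p p') : Differentiable ℂ p := fun w => (G.hp w).differentiableAt

theorem Good.re_p (G : Good p p') : ∀ w, ‖w‖ ≤ 1 → 0 < (p w).re :=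
  re_pos_of_sphere G.diff.diffContOnCl G.h3

theorem Good.ne (G : Good p p') {w : ℂ} (hw : ‖w‖ ≤ 1) : p w ≠ 0 := by
  intro h
  have := G.re_p w hw
  rw [h] at this
  simp at this

theorem Good.re_q (G : Good p p') : ∀ w, ‖w‖ ≤ 1 → 0 < ((p w - w * p' w) / p w).re := by
  apply re_pos_of_sphere
  · have hd : DifferentiableOn ℂ (fun w => (p w - w * p' w) / p w) (closedBall 0 1) := by
      intro w hw
      have hw' : ‖w‖ ≤ 1 := by simpa using hw
      have h1 : DifferentiableAt ℂ (fun w => p w - w * p' w) w :=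
        (G.diff w).sub (differentiableAt_id.mul (G.hp' w))
      exact (h1.div (G.diff w) (G.ne hw')).differentiableWithinAt
    refine ⟨hd.mono ball_subset_closedBall, ?_⟩
    rw [closure_ball (0:ℂ) one_ne_zero]
    exact hd.continuousOn
  · intro w hw
    have h := G.h2 w hw
    have hne := G.ne hw.le
    have hpos : 0 < normSq (p w) := Complex.normSq_pos.mpr hne
    rw [Complex.div_re]
    rw [Complex.mul_re, Complex.conj_re, Complex.conj_im] at h
    have : (p w - w * p' w).re * (p w).re / normSq (p w) +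
        (p w - w * p' w).im * (p w).im / normSq (p w) =
        ((p w - w * p' w).re * (p w).re - (p w - w * p' w).im * -(p w).im) / normSq (p w) := by
      ring
    rw [this]
    exact div_pos h hpos

/-- `Φ s = s + log p(e^{-s})` -/
noncomputable def Phi (p : ℂ → ℂ) (s : ℂ) : ℂ := s + Complex.log (p (exp (-s)))

theorem norm_exp_neg {s : ℂ} (hs : 0 ≤ s.re) : ‖exp (-s)‖ ≤ 1 := by
  rw [Complex.norm_exp, Complex.neg_re, Real.exp_le_one_iff]
  linarith

theorem Good.hasDerivAt_Phi (G : Good p p') {s : ℂ} (hs : 0 ≤ s.re) :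
    HasDerivAt (Phi p) ((p (exp (-s)) - exp (-s) * p' (exp (-s))) / p (exp (-s))) s := by
  have h1 : HasDerivAt (fun s : ℂ => exp (-s)) (exp (-s) * (-1)) s :=
    (hasDerivAt_neg s).cexp
  have h2 : HasDerivAt (fun s : ℂ => p (exp (-s))) (p' (exp (-s)) * (exp (-s) * (-1))) s :=
    (G.hp (exp (-s))).comp s h1
  have hn := norm_exp_neg hs
  have h3 := h2.clog (Or.inl (G.re_p _ hn))
  have h4 := (hasDerivAt_id s).add h3
  have hne := G.ne hn
  have h5 : (p (exp (-s)) - exp (-s) * p' (exp (-s))) / p (exp (-s)) =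
      1 + p' (exp (-s)) * (exp (-s) * -1) / p (exp (-s)) := by
    rw [sub_div, div_self hne]
    ring
  rw [h5]
  exact h4

/-- the monotonicity estimate -/
theorem Good.mono (G : Good p p') {s₁ s₂ : ℂ} (h₁ : 0 ≤ s₁.re) (h₂ : 0 ≤ s₂.re) (hne : s₁ ≠ s₂) :
    0 < ((starRingEnd ℂ) (s₂ - s₁) * (Phi p s₂ - Phi p s₁)).re := by
  set d := s₂ - s₁ with hd
  have hd0 : d ≠ 0 := sub_ne_zero.mpr (Ne.symm hne)
  have hre : ∀ u : ℝ, 0 ≤ u → u ≤ 1 → 0 ≤ (s₁ + u * d).re := by
    intro u hu0 hu1
    have : (s₁ + u * d).re = (1 - u) * s₁.re + u * s₂.re := by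
      simp [hd]; ring
    rw [this]
    have := mul_nonneg (sub_nonneg.mpr hu1) h₁
    have := mul_nonneg hu0 h₂
    linarith
  have hder : ∀ u : ℝ, 0 ≤ u → u ≤ 1 →
      HasDerivAt (fun u : ℝ => ((starRingEnd ℂ) d * Phi p (s₁ + u * d)).re)
        ((starRingEnd ℂ) d * ((p (exp (-(s₁ + u * d))) - exp (-(s₁ + u * d)) *
          p' (exp (-(s₁ + u * d)))) / p (exp (-(s₁ + u * d))) * d)).re u := by
    intro u hu0 hu1
    have h1 : HasDerivAt (fun u : ℝ => s₁ + (u : ℂ) * d) d u := by
      have := ((Complex.ofRealCLM.hasDerivAt (x := u)).mul_const d).const_add s₁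
      simpa using this
    have h2 := (G.hasDerivAt_Phi (hre u hu0 hu1)).comp u h1
    have h3 := h2.const_mul ((starRingEnd ℂ) d)
    exact Complex.reCLM.hasFDerivAt.comp_hasDerivAt u h3
  have hpos : ∀ u : ℝ, 0 ≤ u → u ≤ 1 → 0 <
      ((starRingEnd ℂ) d * ((p (exp (-(s₁ + u * d))) - exp (-(s₁ + u * d)) *
          p' (exp (-(s₁ + u * d)))) / p (exp (-(s₁ + u * d))) * d)).re := by
    intro u hu0 hu1
    have h := G.re_q _ (norm_exp_neg (hre u hu0 hu1))
    generalize (p (exp (-(s₁ + u * d))) - exp (-(s₁ + u * d)) *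
          p' (exp (-(s₁ + u * d)))) / p (exp (-(s₁ + u * d))) = q at h ⊢
    have h1 : (starRingEnd ℂ) d * (q * d) = (normSq d : ℂ) * q := by
      rw [← Complex.mul_conj]; ring
    rw [h1, Complex.re_ofReal_mul]
    exact mul_pos (Complex.normSq_pos.mpr hd0) h
  obtain ⟨c, hc, hc2⟩ := exists_hasDerivAt_eq_slope
    (fun u : ℝ => ((starRingEnd ℂ) d * Phi p (s₁ + u * d)).re) _ (zero_lt_one)
    (fun u hu => (hder u hu.1 hu.2).continuousAt.continuousWithinAt)
    (fun u hu => hder u hu.1.le hu.2.le)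
  have h5 := hpos c hc.1.le hc.2.le
  rw [hc2] at h5
  have h6 : s₁ + ((1:ℝ):ℂ) * d = s₂ := by rw [hd]; push_cast; ring
  have h7 : s₁ + ((0:ℝ):ℂ) * d = s₁ := by push_cast; ring
  simp only [h6, h7, sub_zero, div_one] at h5
  rw [mul_sub, Complex.sub_re]
  exact h5

/-- the exterior map (centred) -/
noncomputable def Ff (p : ℂ → ℂ) (ξ : ℂ) : ℂ := ξ * p ξ⁻¹

theorem Good.exp_Phi (G : Good p p') {s : ℂ} (hs : 0 ≤ s.re) : exp (Phi p s) = Ff p (exp s) := by
  have hne := G.ne (norm_exp_neg hs)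
  rw [Phi, Complex.exp_add, Complex.exp_log hne, Ff, Complex.exp_neg]

theorem Phi_add (p : ℂ → ℂ) (s : ℂ) (n : ℤ) :
    Phi p (s + n * (2 * Real.pi * I)) = Phi p s + n * (2 * Real.pi * I) := by
  have h : exp (-(s + n * (2 * Real.pi * I))) = exp (-s) := by
    have : -(s + n * (2 * Real.pi * I)) = -s + ((-n : ℤ) : ℂ) * (2 * Real.pi * I) := by
      push_cast; ring
    rw [this, Complex.exp_add, Complex.exp_int_mul_two_pi_mul_I, mul_one]
  rw [Phi, Phi, h]; ring

theorem re_add_int (s : ℂ) (n : ℤ) : (s + n * (2 * Real.pi * I)).re = s.re := by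
  simp

/-- injectivity on the closed exterior -/
theorem Good.inj (G : Good p p') {x y : ℂ} (hx : 1 ≤ ‖x‖) (hy : 1 ≤ ‖y‖)
    (h : Ff p x = Ff p y) : x = y := by
  have hx0 : x ≠ 0 := by
    intro h0; rw [h0, norm_zero] at hx; linarith
  have hy0 : y ≠ 0 := by
    intro h0; rw [h0, norm_zero] at hy; linarith
  have ex : exp (Complex.log x) = x := Complex.exp_log hx0
  have ey : exp (Complex.log y) = y := Complex.exp_log hy0
  have rx : 0 ≤ (Complex.log x).re := by
    rw [Complex.log_re]; exact Real.log_nonneg hx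
  have ry : 0 ≤ (Complex.log y).re := by
    rw [Complex.log_re]; exact Real.log_nonneg hy
  have h1 : exp (Phi p (Complex.log x)) = exp (Phi p (Complex.log y)) := by
    rw [G.exp_Phi rx, G.exp_Phi ry, ex, ey, h]
  obtain ⟨n, hn⟩ := Complex.exp_eq_exp_iff_exists_int.mp h1
  rw [← Phi_add] at hn
  have h2 : Complex.log x = Complex.log y + n * (2 * Real.pi * I) := by
    by_contra hne
    have h3 := G.mono rx (by rw [re_add_int]; exact ry) hne
    rw [hn, sub_self, mul_zero] at h3
    simp at h3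
  rw [← ex, h2, Complex.exp_add, Complex.exp_int_mul_two_pi_mul_I, mul_one, ey]

/-- the complement of the image of the open exterior is starlike -/
theorem Good.star (G : Good p p') {x y : ℂ} {t : ℝ} (hx : 1 < ‖x‖) (hy : ‖y‖ = 1)
    (ht0 : 0 ≤ t) (ht1 : t ≤ 1) : Ff p x ≠ t * Ff p y := by
  intro h
  have hx0 : x ≠ 0 := by
    intro h0; rw [h0, norm_zero] at hx; linarith
  have hy0 : y ≠ 0 := by
    intro h0; rw [h0, norm_zero] at hy; linarith
  have hpx : p x⁻¹ ≠ 0 := by
    apply G.ne
    rw [norm_inv]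
    exact inv_le_one_of_one_le₀ hx.le
  have ht : 0 < t := by
    rcases ht0.eq_or_lt with h0 | h0
    · rw [← h0, Complex.ofReal_zero, zero_mul, Ff] at h
      exact absurd h (mul_ne_zero hx0 hpx)
    · exact h0
  have ex : exp (Complex.log x) = x := Complex.exp_log hx0
  have ey : exp (Complex.log y) = y := Complex.exp_log hy0
  have rx : 0 < (Complex.log x).re := by
    rw [Complex.log_re]; exact Real.log_pos hx
  have ry : (Complex.log y).re = 0 := by
    rw [Complex.log_re, hy, Real.log_one]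
  have et : exp ((Real.log t : ℝ) : ℂ) = t := by
    rw [← Complex.ofReal_exp, Real.exp_log ht]
  have h1 : exp (Phi p (Complex.log x)) = exp (Real.log t + Phi p (Complex.log y)) := by
    rw [Complex.exp_add, G.exp_Phi rx.le, G.exp_Phi ry.ge, ex, ey, h, et]
  obtain ⟨n, hn⟩ := Complex.exp_eq_exp_iff_exists_int.mp h1
  rw [add_assoc, ← Phi_add] at hn
  have hre : (Complex.log y + n * (2 * Real.pi * I)).re = 0 := by rw [re_add_int]; exact ry
  generalize Complex.log y + n * (2 * Real.pi * I) = s at hn hre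
  have hne : s ≠ Complex.log x := by
    intro h0; rw [← h0, hre] at rx; exact lt_irrefl _ rx
  have h3 := G.mono hre.ge rx.le hne
  have h4 : Phi p (Complex.log x) - Phi p s = ((Real.log t : ℝ) : ℂ) := by rw [hn]; ring
  rw [h4, mul_comm, Complex.re_ofReal_mul, Complex.conj_re, Complex.sub_re, hre, sub_zero] at h3
  have h5 : Real.log t ≤ 0 := Real.log_nonpos ht0 ht1
  have := mul_nonneg (neg_nonneg.mpr h5) rx.le
  linarith

/-- injectivity of the polar parametrisation -/
theorem Good.param_inj (G : Good p p') {a b : ℝ} {t u : ℝ} (ht : 0 < t) (hu : 0 < u)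
    (ha : a ∈ Ioo (-Real.pi) Real.pi) (hb : b ∈ Ioo (-Real.pi) Real.pi)
    (h : (t : ℂ) * Ff p (exp (a * I)) = u * Ff p (exp (b * I))) : t = u ∧ a = b := by
  have ra : ((a : ℂ) * I).re = 0 := by simp
  have rb : ((b : ℂ) * I).re = 0 := by simp
  have et : exp ((Real.log t : ℝ) : ℂ) = t := by
    rw [← Complex.ofReal_exp, Real.exp_log ht]
  have eu : exp ((Real.log u : ℝ) : ℂ) = u := by
    rw [← Complex.ofReal_exp, Real.exp_log hu]
  have h1 : exp (Real.log t + Phi p (a * I)) = exp (Real.log u + Phi p (b * I)) := by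
    rw [Complex.exp_add, Complex.exp_add, G.exp_Phi ra.ge, G.exp_Phi rb.ge, et, eu, h]
  obtain ⟨n, hn⟩ := Complex.exp_eq_exp_iff_exists_int.mp h1
  rw [add_assoc, ← Phi_add] at hn
  have hre : ((b : ℂ) * I + n * (2 * Real.pi * I)).re = 0 := by rw [re_add_int]; exact rb
  have h2 : (a : ℂ) * I = (b : ℂ) * I + n * (2 * Real.pi * I) := by
    by_contra hne
    have h3 := G.mono ra.ge hre.ge hne
    have h4 : Phi p ((b : ℂ) * I + n * (2 * Real.pi * I)) - Phi p (a * I) =
        ((Real.log t - Real.log u : ℝ) : ℂ) := by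
      push_cast
      linear_combination -hn
    rw [h4, mul_comm, Complex.re_ofReal_mul, Complex.conj_re, Complex.sub_re, hre, ra,
      sub_zero, mul_zero] at h3
    exact lt_irrefl _ h3
  have h5 : a = b + n * (2 * Real.pi) := by
    have := congrArg Complex.im h2
    simpa using this
  have hn0 : n = 0 := by
    have hpi := Real.pi_pos
    have h6 : (n : ℝ) * (2 * Real.pi) < 2 * Real.pi := by linarith [ha.2, hb.1]
    have h7 : -(2 * Real.pi) < (n : ℝ) * (2 * Real.pi) := by linarith [ha.1, hb.2]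
    have h8 : (n : ℝ) < 1 := by
      by_contra hcon
      push Not at hcon
      nlinarith
    have h9 : (-1 : ℝ) < n := by
      by_contra hcon
      push Not at hcon
      nlinarith
    have h10 : n < 1 := by exact_mod_cast h8
    have h11 : -1 < n := by exact_mod_cast h9
    omega
  have hab : a = b := by rw [h5, hn0]; simp
  refine ⟨?_, hab⟩
  rw [hn0] at hn
  simp only [Int.cast_zero, zero_mul, add_zero] at hn
  rw [hab] at hn
  have h12 : ((Real.log t : ℝ) : ℂ) = ((Real.log u : ℝ) : ℂ) := add_right_cancel hn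
  have h13 : Real.log t = Real.log u := by exact_mod_cast h12
  exact Real.log_injOn_pos ht hu h13

end Pool.Agent.Helper72.OA
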