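import Mathlib

/-!
Integer coefficient lists as polynomials, and a certificate lemma for the sign of
trigonometric polynomials.
-/

open Complex

namespace Pool.Agent.Helper72.OA

/-- evaluation of an integer coefficient list as a polynomial -/
noncomputable def ev : List ℤ → ℂ → ℂ
  | [], _ => 0
  | a :: l, w => (a : ℂ) + w * ev l w

/-- sum of coefficient lists -/
def addL : List ℤ → List ℤ → List ℤ
  | [], m => m
  | l, [] => l
  | a :: l, b :: m => (a + b) :: addL l m

/-- scalar multiple -/
def smulL (c : ℤ) : List ℤ → List ℤ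
  | [] => []
  | a :: l => (c * a) :: smulL c l

/-- product of coefficient lists -/
def mulL : List ℤ → List ℤ → List ℤ
  | [], _ => []
  | a :: l, m => addL (smulL a m) (0 :: mulL l m)

/-- coefficient list of the derivative -/
def dL : List ℤ → List ℤ
  | [] => []
  | [_] => []
  | _ :: b :: l => addL (b :: l) (0 :: dL (b :: l))

/-- sum of the absolute values of the coefficients -/
def norm1 : List ℤ → ℤ
  | [] => 0
  | a :: l => (a.natAbs : ℤ) + norm1 l

/-- the coefficient number `n` -/
def co : List ℤ → ℕ → ℤ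
  | [], _ => 0
  | a :: _, 0 => a
  | _ :: l, n + 1 => co l n

/-- reversal -/
def rev : List ℤ → List ℤ
  | [] => []
  | a :: l => rev l ++ [a]

theorem ev_addL (l m : List ℤ) (w : ℂ) : ev (addL l m) w = ev l w + ev m w := by
  induction l generalizing m with
  | nil => simp [addL, ev]
  | cons a l ih =>
    cases m with
    | nil => simp [addL, ev]
    | cons b m => simp only [addL, ev, ih]; push_cast; ring

theorem ev_smulL (c : ℤ) (l : List ℤ) (w : ℂ) : ev (smulL c l) w = c * ev l w := by
  induction l with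
  | nil => simp [smulL, ev]
  | cons a l ih => simp only [smulL, ev, ih]; push_cast; ring

theorem ev_mulL (l m : List ℤ) (w : ℂ) : ev (mulL l m) w = ev l w * ev m w := by
  induction l with
  | nil => simp [mulL, ev]
  | cons a l ih =>
    simp only [mulL, ev_addL, ev_smulL, ev, ih]; push_cast; ring

theorem ev_append (l : List ℤ) (a : ℤ) (w : ℂ) :
    ev (l ++ [a]) w = ev l w + a * w ^ l.length := by
  induction l with
  | nil => simp [ev]
  | cons b l ih => simp only [List.cons_append, ev, ih, List.length_cons]; ring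

theorem length_rev (l : List ℤ) : (rev l).length = l.length := by
  induction l with
  | nil => rfl
  | cons a l ih => simp [rev, ih]

theorem star_w {w : ℂ} (hw : ‖w‖ = 1) : w * (starRingEnd ℂ) w = 1 := by
  rw [Complex.mul_conj, Complex.normSq_eq_norm_sq, hw]; simp

theorem ev_rev (l : List ℤ) {w : ℂ} (hw : ‖w‖ = 1) :
    ev (rev l) w * w = w ^ l.length * (starRingEnd ℂ) (ev l w) := by
  induction l with
  | nil => simp [rev, ev]
  | cons a l ih =>
    simp only [rev, ev_append, length_rev, List.length_cons, ev, map_add, map_mul,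
      map_intCast]
    rw [add_mul, ih, pow_succ]
    have h := star_w hw
    linear_combination (-(w ^ l.length * (starRingEnd ℂ) (ev l w))) * h

theorem natAbs_cast (a : ℤ) : (((a.natAbs : ℤ)) : ℝ) = |(a : ℝ)| := by
  rw [Int.natCast_natAbs, Int.cast_abs]

theorem norm_ev_sub_le (l : List ℤ) {w : ℂ} (hw : ‖w‖ = 1) :
    ‖ev l w‖ ≤ (norm1 l : ℝ) := by
  induction l with
  | nil => simp [ev, norm1]
  | cons a l ih =>
    simp only [ev, norm1, Int.cast_add, natAbs_cast]
    refine (norm_add_le _ _).trans ?_
    rw [norm_mul, hw, one_mul]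
    have : ‖(a : ℂ)‖ = |(a : ℝ)| := by
      rw [Complex.norm_intCast]
    rw [this]
    linarith

theorem norm_ev_sub_co_le (l : List ℤ) (n : ℕ) {w : ℂ} (hw : ‖w‖ = 1) :
    ‖ev l w - (co l n : ℂ) * w ^ n‖ ≤ (norm1 l : ℝ) - |(co l n : ℝ)| := by
  induction l generalizing n with
  | nil => simp [ev, norm1, co]
  | cons a l ih =>
    cases n with
    | zero =>
      simp only [ev, norm1, co, pow_zero, mul_one, add_sub_cancel_left, Int.cast_add, natAbs_cast]
      rw [norm_mul, hw, one_mul]
      have := norm_ev_sub_le l hw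
      linarith
    | succ n =>
      simp only [ev, norm1, co, Int.cast_add, natAbs_cast]
      have h : (a : ℂ) + w * ev l w - (co l n : ℂ) * w ^ (n + 1) =
          a + w * (ev l w - (co l n : ℂ) * w ^ n) := by ring
      rw [h]
      refine (norm_add_le _ _).trans ?_
      rw [norm_mul, hw, one_mul]
      have h2 : ‖(a : ℂ)‖ = |(a : ℝ)| := by rw [Complex.norm_intCast]
      rw [h2]
      have := ih n
      linarith

/-- lower bound for a self-reciprocal trigonometric polynomial -/
theorem re_lower (T : List ℤ) (n : ℕ) {w : ℂ} (hw : ‖w‖ = 1) :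
    ((2 * co T n - norm1 T : ℤ) : ℝ) ≤ ((starRingEnd ℂ) w ^ n * ev T w).re := by
  have h := norm_ev_sub_co_le T n hw
  have hs : (starRingEnd ℂ) w ^ n * w ^ n = 1 := by
    rw [← mul_pow, mul_comm, star_w hw, one_pow]
  have h1 : (starRingEnd ℂ) w ^ n * ev T w =
      (co T n : ℂ) + (starRingEnd ℂ) w ^ n * (ev T w - (co T n : ℂ) * w ^ n) := by
    linear_combination (co T n : ℂ) * hs
  have h2 : ‖(starRingEnd ℂ) w ^ n * (ev T w - (co T n : ℂ) * w ^ n)‖ ≤
      (norm1 T : ℝ) - |(co T n : ℝ)| := by
    rw [norm_mul, norm_pow, Complex.norm_conj, hw, one_pow, one_mul]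
    exact h
  have h3 := Complex.abs_re_le_norm ((starRingEnd ℂ) w ^ n * (ev T w - (co T n : ℂ) * w ^ n))
  have h4 := neg_abs_le ((starRingEnd ℂ) w ^ n * (ev T w - (co T n : ℂ) * w ^ n)).re
  rw [h1, Complex.add_re, Complex.intCast_re]
  push_cast
  have h5 := le_abs_self (co T n : ℝ)
  linarith

/-- derivative -/
theorem hasDerivAt_ev (l : List ℤ) (w : ℂ) : HasDerivAt (ev l) (ev (dL l) w) w := by
  induction l with
  | nil => simpa [ev, dL] using hasDerivAt_const w (0 : ℂ)
  | cons a l ih =>
    have h : HasDerivAt (fun w => (a : ℂ) + w * ev l w) (1 * ev l w + w * ev (dL l) w) w :=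
      ((hasDerivAt_id w).mul ih).const_add (a : ℂ)
    have h2 : ev (dL (a :: l)) w = 1 * ev l w + w * ev (dL l) w := by
      cases l with
      | nil => simp [dL, ev]
      | cons b l => simp only [dL, ev_addL, ev]; push_cast; ring
    rw [h2]
    exact h

/-- `p - w p'` -/
def qL (p : List ℤ) : List ℤ := addL p (smulL (-1) (0 :: dL p))

theorem ev_qL (p : List ℤ) (w : ℂ) : ev (qL p) w = ev p w - w * ev (dL p) w := by
  simp only [qL, ev_addL, ev_smulL, ev]; push_cast; ring

/-- `|p|^2` on the unit circle -/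
theorem mul_rev (p q : List ℤ) (n : ℕ) (hq : q.length = n + 1) {w : ℂ} (hw : ‖w‖ = 1) :
    (starRingEnd ℂ) w ^ n * ev (mulL p (rev q)) w = ev p w * (starRingEnd ℂ) (ev q w) := by
  have h := ev_rev q hw
  rw [hq, pow_succ] at h
  have hs : (starRingEnd ℂ) w ^ n * w ^ n = 1 := by
    rw [← mul_pow, mul_comm, star_w hw, one_pow]
  have hw0 : w ≠ 0 := by
    intro h0; rw [h0, norm_zero] at hw; exact zero_ne_one hw
  have h2 : ev (rev q) w = w ^ n * (starRingEnd ℂ) (ev q w) := by
    apply mul_right_cancel₀ hw0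
    rw [h]; ring
  rw [ev_mulL, h2]
  linear_combination (ev p w * (starRingEnd ℂ) (ev q w)) * hs

end Pool.Agent.Helper72.OA
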