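import Mathlib

/-!
The conformal map of the unit disk onto the exterior of the unit disk slit along
the negative real axis.
-/

open Complex Metric Set

namespace Pool.Agent.Helper72.OA

theorem slit {s : ℂ} (hs : 0 < s.re) : s ^ 2 + 4 ∈ slitPlane := by
  rw [mem_slitPlane_iff]
  by_cases h : s.im = 0
  · left
    have : (s ^ 2 + 4).re = s.re ^ 2 - s.im ^ 2 + 4 := by
      simp [pow_two]
    rw [this, h]
    nlinarith [sq_nonneg s.re]
  · right
    have : (s ^ 2 + 4).im = 2 * s.re * s.im := by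
      simp [pow_two]; ring
    rw [this]
    exact mul_ne_zero (mul_ne_zero two_ne_zero hs.ne') h

/-- square root of `s^2+4` -/
noncomputable def rr (s : ℂ) : ℂ := exp (Complex.log (s ^ 2 + 4) / 2)

theorem rr_sq {s : ℂ} (hs : 0 < s.re) : rr s ^ 2 = s ^ 2 + 4 := by
  rw [rr, ← Complex.exp_nat_mul]
  have : ((2:ℕ):ℂ) * (Complex.log (s ^ 2 + 4) / 2) = Complex.log (s ^ 2 + 4) := by
    push_cast; ring
  rw [this, Complex.exp_log (slitPlane_ne_zero (slit hs))]

theorem rr_re {s : ℂ} (hs : 0 < s.re) : 0 < (rr s).re := by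
  rw [rr, Complex.exp_re]
  apply mul_pos (Real.exp_pos _)
  have h := mem_slitPlane_iff_arg.mp (slit hs)
  have h1 : (Complex.log (s ^ 2 + 4) / 2).im = (s ^ 2 + 4).arg / 2 := by
    rw [← Complex.log_im]
    simp
  rw [h1]
  apply Real.cos_pos_of_mem_Ioo
  have h2 := Complex.arg_mem_Ioc (s ^ 2 + 4)
  constructor
  · linarith [h2.1]
  · have : (s ^ 2 + 4).arg < Real.pi := lt_of_le_of_ne h2.2 h.1
    linarith

theorem rr_ne {s : ℂ} : rr s ≠ 0 := Complex.exp_ne_zero _

theorem hasDerivAt_rr {s : ℂ} (hs : 0 < s.re) : HasDerivAt rr (s / rr s) s := by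
  have h0 : HasDerivAt (fun s : ℂ => s ^ 2 + 4) (2 * s) s := by
    have := (hasDerivAt_pow 2 s).add_const (4:ℂ)
    simpa using this
  have h1 := ((h0.clog (slit hs)).div_const 2).cexp
  have h2 : s / rr s = exp (Complex.log (s ^ 2 + 4) / 2) * (2 * s / (s ^ 2 + 4) / 2) := by
    have h3 := rr_sq hs
    have h4 : rr s ≠ 0 := rr_ne
    change s / rr s = rr s * (2 * s / (s ^ 2 + 4) / 2)
    rw [← h3]
    field_simp
  rw [h2]
  exact h1

/-- the solution of `v - 1/v = s` in the right half-plane -/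
noncomputable def vv (s : ℂ) : ℂ := (s + rr s) / 2

theorem vv_re {s : ℂ} (hs : 0 < s.re) : 0 < (vv s).re := by
  have h : (vv s).re = (s.re + (rr s).re) / 2 := by simp [vv]
  rw [h]
  have := rr_re hs
  linarith

theorem vv_ne {s : ℂ} (hs : 0 < s.re) : vv s ≠ 0 := by
  intro h
  have := vv_re hs
  rw [h] at this
  simp at this

theorem vv_inv {s : ℂ} (hs : 0 < s.re) : (vv s)⁻¹ = (rr s - s) / 2 := by
  rw [inv_eq_iff_eq_inv, eq_comm, inv_eq_iff_eq_inv, eq_comm]
  apply inv_eq_of_mul_eq_one_right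
  rw [vv]
  have := rr_sq hs
  linear_combination this / 4

theorem vv_sub {s : ℂ} (hs : 0 < s.re) : vv s - (vv s)⁻¹ = s := by
  rw [vv_inv hs, vv]; ring

theorem one_lt_norm_vv {s : ℂ} (hs : 0 < s.re) : 1 < ‖vv s‖ := by
  by_contra hcon
  push Not at hcon
  have h1 := vv_sub hs
  have h2 := vv_re hs
  have hne := vv_ne hs
  have hpos : 0 < normSq (vv s) := Complex.normSq_pos.mpr hne
  have hle : normSq (vv s) ≤ 1 := by
    rw [Complex.normSq_eq_norm_sq]
    exact pow_le_one₀ (norm_nonneg _) hcon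
  have h3 : (vv s).re ≤ ((vv s)⁻¹).re := by
    rw [Complex.inv_re, le_div_iff₀ hpos]
    nlinarith
  have h4 := congrArg Complex.re h1
  rw [Complex.sub_re] at h4
  linarith

theorem hasDerivAt_vv {s : ℂ} (hs : 0 < s.re) : HasDerivAt vv (vv s / rr s) s := by
  have h := ((hasDerivAt_id s).add (hasDerivAt_rr hs)).div_const 2
  have h2 : vv s / rr s = (1 + s / rr s) / 2 := by
    have := rr_ne (s := s)
    rw [vv]
    field_simp
    ring
  rw [h2]
  exact h

/-- the Moebius map -/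
noncomputable def sM (z : ℂ) : ℂ := 13 / 42 * ((1 + z) / (1 - z))

theorem sM_re {z : ℂ} (hz : ‖z‖ < 1) : 0 < (sM z).re := by
  have h1 : (1:ℂ) - z ≠ 0 := by
    intro h
    have : z = 1 := by linear_combination -h
    rw [this] at hz
    simp at hz
  have hpos : 0 < normSq (1 - z) := Complex.normSq_pos.mpr h1
  have h2 : (sM z).re = 13 / 42 * ((1 - normSq z) / normSq (1 - z)) := by
    have : sM z = ((13 / 42 : ℝ) : ℂ) * ((1 + z) / (1 - z)) := by
      rw [sM]; push_cast; rfl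
    rw [this, Complex.re_ofReal_mul, Complex.div_re]
    congr 1
    rw [← add_div]
    congr 1
    rw [Complex.normSq_apply]
    simp
    ring
  rw [h2]
  have h3 : normSq z < 1 := by
    rw [Complex.normSq_eq_norm_sq]
    exact pow_lt_one₀ (norm_nonneg _) hz two_ne_zero
  have : 0 < 1 - normSq z := by linarith
  positivity

theorem one_sub_ne {z : ℂ} (hz : ‖z‖ < 1) : (1:ℂ) - z ≠ 0 := by
  intro h
  have : z = 1 := by linear_combination -h
  rw [this] at hz
  simp at hz

theorem sM_inj {z w : ℂ} (hz : ‖z‖ < 1) (hw : ‖w‖ < 1) (h : sM z = sM w) : z = w := by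
  have h1 := one_sub_ne hz
  have h2 := one_sub_ne hw
  rw [sM, sM] at h
  have h3 : (1 + z) / (1 - z) = (1 + w) / (1 - w) := by
    apply mul_left_cancel₀ (a := (13 / 42 : ℂ)) (by norm_num) h
  rw [div_eq_div_iff h1 h2] at h3
  linear_combination h3 / 2

theorem hasDerivAt_sM {z : ℂ} (hz : ‖z‖ < 1) :
    HasDerivAt sM (13 / 42 * (2 / (1 - z) ^ 2)) z := by
  have h1 := one_sub_ne hz
  have h2 : HasDerivAt (fun z : ℂ => (1 + z) / (1 - z)) (2 / (1 - z) ^ 2) z := by
    have ha : HasDerivAt (fun z : ℂ => 1 + z) 1 z := (hasDerivAt_id z).const_add 1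
    have hb : HasDerivAt (fun z : ℂ => 1 - z) (-1) z := (hasDerivAt_id z).const_sub 1
    have := ha.div hb h1
    have h3 : (2:ℂ) / (1 - z) ^ 2 = (1 * (1 - z) - (1 + z) * (-1)) / (1 - z) ^ 2 := by ring
    rw [h3]
    exact this
  exact h2.const_mul _

/-- the Riemann map onto the slit exterior -/
noncomputable def xiM (z : ℂ) : ℂ := vv (sM z) ^ 2

theorem one_lt_norm_xiM {z : ℂ} (hz : ‖z‖ < 1) : 1 < ‖xiM z‖ := by
  rw [xiM, norm_pow]
  exact one_lt_pow₀ (one_lt_norm_vv (sM_re hz)) two_ne_zero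

theorem xiM_inj {z w : ℂ} (hz : ‖z‖ < 1) (hw : ‖w‖ < 1) (h : xiM z = xiM w) : z = w := by
  have h1 := vv_re (sM_re hz)
  have h2 := vv_re (sM_re hw)
  have h3 : vv (sM z) = vv (sM w) := by
    rw [xiM, xiM] at h
    rcases sq_eq_sq_iff_eq_or_eq_neg.mp h with h4 | h4
    · exact h4
    · exfalso
      rw [h4, Complex.neg_re] at h1
      linarith
  apply sM_inj hz hw
  rw [← vv_sub (sM_re hz), ← vv_sub (sM_re hw), h3]

theorem hasDerivAt_xiM {z : ℂ} (hz : ‖z‖ < 1) :
    HasDerivAt xiM (2 * vv (sM z) * (vv (sM z) / rr (sM z) * (13 / 42 * (2 / (1 - z) ^ 2)))) z := by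
  have h1 := (hasDerivAt_vv (sM_re hz)).comp z (hasDerivAt_sM hz)
  have h2 := h1.pow 2
  have h3 : 2 * vv (sM z) * (vv (sM z) / rr (sM z) * (13 / 42 * (2 / (1 - z) ^ 2))) =
      ((2:ℕ):ℂ) * (vv ∘ sM) z ^ (2 - 1) * (vv (sM z) / rr (sM z) *
        (13 / 42 * (2 / (1 - z) ^ 2))) := by
    simp
  rw [h3]
  exact h2

theorem sM_zero : sM 0 = 13 / 42 := by simp [sM]

theorem rr_zero : rr (13 / 42) = 85 / 42 := by
  have hs : (0:ℝ) < ((13:ℂ) / 42).re := by
    have : ((13:ℂ) / 42) = ((13 / 42 : ℝ) : ℂ) := by push_cast; rfl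
    rw [this, Complex.ofReal_re]; norm_num
  have h1 := rr_sq hs
  have h2 := rr_re hs
  have h3 : (rr (13 / 42) - 85 / 42) * (rr (13 / 42) + 85 / 42) = 0 := by
    linear_combination h1
  rcases mul_eq_zero.mp h3 with h4 | h4
  · linear_combination h4
  · exfalso
    have h5 : rr (13 / 42) = ((-(85 / 42) : ℝ) : ℂ) := by
      push_cast; linear_combination h4
    rw [h5, Complex.ofReal_re] at h2
    norm_num at h2

theorem vv_zero : vv (13 / 42) = 7 / 6 := by
  rw [vv, rr_zero]; norm_num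

theorem xiM_zero : xiM 0 = 49 / 36 := by
  rw [xiM, sM_zero, vv_zero]; norm_num

theorem hasDerivAt_xiM_zero : HasDerivAt xiM (637 / 765) 0 := by
  have h := hasDerivAt_xiM (z := 0) (by simp)
  rw [sM_zero, vv_zero, rr_zero] at h
  convert h using 1
  norm_num

end Pool.Agent.Helper72.OA
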