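import Pool.Agent.Helper72.OA.Trig
import Pool.Agent.Helper72.OA.MapV

/-!
The explicit univalent function with small image area in the unit disk.
-/

open Complex Metric Set MeasureTheory

namespace Pool.Agent.Helper72.OA

/-- `b^(length) * ev l (a/b)` -/
def evH : List ℤ → ℤ → ℤ → ℤ
  | [], _, _ => 0
  | c :: l, a, b => c * b ^ (l.length + 1) + a * evH l a b

theorem evH_eq (l : List ℤ) (a b : ℤ) (hb : b ≠ 0) :
    ((evH l a b : ℤ) : ℂ) = (b : ℂ) ^ l.length * ev l (a / b) := by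
  have hb' : (b : ℂ) ≠ 0 := by exact_mod_cast hb
  induction l with
  | nil => simp [evH, ev]
  | cons c l ih =>
    simp only [evH, ev, List.length_cons]
    push_cast
    rw [ih]
    field_simp
    ring

/-- the value of `ev` at a rational point -/
theorem ev_rat (l : List ℤ) (a b : ℤ) (hb : b ≠ 0) :
    ev l (a / b) = (((evH l a b : ℝ) / (b : ℝ) ^ l.length : ℝ) : ℂ) := by
  have hb' : (b : ℂ) ≠ 0 := by exact_mod_cast hb
  have h := evH_eq l a b hb
  push_cast
  rw [h]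
  field_simp

/-- value of `Q` at `36/49` -/
noncomputable def qv : ℝ := (evH (qL pL) 36 49 : ℝ) / (49 : ℝ) ^ 30 / 10 ^ 9

theorem qv_ge : 765 / 637 ≤ qv := by
  have h : (765 : ℤ) * (49 ^ 30 * 10 ^ 9) ≤ 637 * evH (qL pL) 36 49 := by decide +kernel
  have h' : (765 : ℝ) * (49 ^ 30 * 10 ^ 9) ≤ 637 * (evH (qL pL) 36 49 : ℝ) := by exact_mod_cast h
  rw [qv, div_div, div_le_div_iff₀ (by norm_num) (by positivity)]
  linarith

theorem inv_xi : ((49:ℂ) / 36)⁻¹ = ((36:ℤ):ℂ) / ((49:ℤ):ℂ) := by norm_num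

theorem q_at : PP (49 / 36)⁻¹ - (49 / 36)⁻¹ * PP' (49 / 36)⁻¹ = (qv : ℂ) := by
  rw [PP_q, inv_xi, ev_rat _ _ _ (by norm_num), len_q, qv]
  push_cast
  rfl

/-- the shift `G(49/36)` -/
noncomputable def eta : ℝ := (49 / 36) * ((evH gL 36 49 : ℝ) / (49 : ℝ) ^ 30) / 10 ^ 9

theorem eta_le : |eta| ≤ 1 / 10 ^ 7 := by
  have h : |49 * evH gL 36 49| ≤ 36 * 49 ^ 30 * 100 := by decide +kernel
  have h' : |49 * (evH gL 36 49 : ℝ)| ≤ 36 * 49 ^ 30 * 100 := by exact_mod_cast h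
  have h2 : eta = (49 * (evH gL 36 49 : ℝ)) / (36 * 49 ^ 30 * 10 ^ 9) := by
    rw [eta]; ring
  rw [h2, abs_div, div_le_div_iff₀ (by positivity) (by norm_num),
    abs_of_pos (show (0:ℝ) < 36 * 49 ^ 30 * 10 ^ 9 by positivity)]
  linarith

theorem ev_p (w : ℂ) : ev pL w = ev gL w + w * 960000000 := by
  rw [pL_eq, ev_addL]
  simp only [ev]
  push_cast
  ring

/-- `F(49/36)` -/
theorem F_at : Ff PP (49 / 36) = (eta : ℂ) + 24 / 25 := by
  have h := ev_rat gL 36 49 (by norm_num)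
  rw [len_g] at h
  rw [Ff, PP, ev_p, inv_xi, h, eta]
  push_cast
  ring

/-- on the unit circle `F = G - c` with `|G| ≤ 1 - 10^{-7}` -/
theorem F_circle (y : ℝ) : ‖gam PP y - 24 / 25‖ ≤ 1 - 1 / 10 ^ 7 := by
  have h1 : (exp ((y:ℂ) * I))⁻¹ = exp (-(y * I)) := (Complex.exp_neg _).symm
  have h2 : exp ((y:ℂ) * I) * exp (-(y * I)) = 1 := by
    rw [← Complex.exp_add]; simp
  have h3 : gam PP y - 24 / 25 = exp (y * I) * (ev gL (exp (-(y * I))) / 10 ^ 9) := by
    rw [gam, Ff, PP, h1, ev_p]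
    linear_combination (24 / 25 : ℂ) * h2
  rw [h3, norm_mul, norm_exp_I, one_mul, norm_div]
  have h4 := bound_g (norm_exp_neg_I y)
  have h5 : ‖(10 ^ 9 : ℂ)‖ = 10 ^ 9 := by
    rw [norm_pow]; norm_num
  rw [h5, div_le_iff₀ (by norm_num)]
  refine h4.trans ?_
  norm_num

/-- the omitted set -/
noncomputable def Eset : Set ℂ := Psi PP (-(Ff PP (49 / 36))) '' Ubox

theorem Eset_subset : Eset ⊆ closedBall 0 1 := by
  rintro _ ⟨z, hz, rfl⟩
  have hz1 := hz.1
  simp only [mem_preimage] at hz1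
  obtain ⟨ht0, ht1⟩ := hz1
  rw [mem_closedBall_zero_iff, Psi, F_at]
  have h1 : -((eta:ℂ) + 24 / 25) + z.re * gam PP z.im =
      ((1 - z.re : ℝ) : ℂ) * (-((eta : ℂ) + 24 / 25)) +
        (z.re : ℂ) * ((gam PP z.im - 24 / 25) - eta) := by
    push_cast; ring
  rw [h1]
  have he := eta_le
  have h2 : ‖-((eta : ℂ) + 24 / 25)‖ ≤ 1 := by
    have : -((eta : ℂ) + 24 / 25) = ((-(eta + 24 / 25) : ℝ) : ℂ) := by push_cast; ring
    rw [this, Complex.norm_real, Real.norm_eq_abs, abs_neg]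
    have := abs_le.mp he
    rw [abs_le]
    constructor
    · have : (1:ℝ) / 10 ^ 7 ≤ 1 / 100 := by norm_num
      linarith [this]
    · have : (1:ℝ) / 10 ^ 7 ≤ 1 / 100 := by norm_num
      linarith [this]
  have h3 : ‖(gam PP z.im - 24 / 25) - (eta : ℂ)‖ ≤ 1 := by
    refine (norm_sub_le _ _).trans ?_
    rw [Complex.norm_real, Real.norm_eq_abs]
    have := F_circle z.im
    linarith
  refine (norm_add_le _ _).trans ?_
  rw [norm_mul, norm_mul, Complex.norm_real, Complex.norm_real, Real.norm_eq_abs,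
    Real.norm_eq_abs, abs_of_pos ht0, abs_of_pos (by linarith : (0:ℝ) < 1 - z.re)]
  have h4 := mul_le_mul_of_nonneg_left h2 (by linarith : (0:ℝ) ≤ 1 - z.re)
  have h5 := mul_le_mul_of_nonneg_left h3 ht0.le
  linarith

theorem volume_Eset : volume Eset = ENNReal.ofReal (Real.pi * (238574948296592885 / 10 ^ 18)) := by
  rw [Eset, good_PP.volume_Psi, int_dens]
  congr 1
  ring

/-- `R` -/
noncomputable def RR : ℝ := qv * (637 / 765)

theorem one_le_RR : 1 ≤ RR := by
  have := qv_ge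
  rw [RR]
  linarith

/-- the function -/
noncomputable def fM (z : ℂ) : ℂ := Ff PP (xiM (z / RR)) - Ff PP (49 / 36)

theorem RR_pos : 0 < RR := lt_of_lt_of_le one_pos one_le_RR

theorem norm_div_RR {z : ℂ} (hz : ‖z‖ < 1) : ‖z / (RR : ℂ)‖ < 1 := by
  rw [norm_div, Complex.norm_real, Real.norm_eq_abs, abs_of_pos RR_pos, div_lt_one RR_pos]
  exact lt_of_lt_of_le hz one_le_RR

theorem hasDerivAt_fM {z : ℂ} (hz : ‖z‖ < 1) :
    HasDerivAt fM ((PP (xiM (z / RR))⁻¹ - (xiM (z / RR))⁻¹ * PP' (xiM (z / RR))⁻¹) *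
      (2 * vv (sM (z / RR)) * (vv (sM (z / RR)) / rr (sM (z / RR)) *
        (13 / 42 * (2 / (1 - z / RR) ^ 2))) * (1 / (RR : ℂ)))) z := by
  have hz' := norm_div_RR hz
  have h0 : HasDerivAt (fun z : ℂ => z / (RR : ℂ)) (1 / (RR:ℂ)) z := (hasDerivAt_id z).div_const _
  have h1 := (hasDerivAt_xiM hz').comp z h0
  have hne : xiM (z / RR) ≠ 0 := by
    intro h
    have := one_lt_norm_xiM hz'
    rw [h, norm_zero] at this
    linarith
  have h2 := (good_PP.hasDerivAt_Ff hne).comp z h1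
  exact h2.sub_const _

theorem differentiableOn_fM : DifferentiableOn ℂ fM (ball 0 1) := by
  intro z hz
  rw [mem_ball_zero_iff] at hz
  exact (hasDerivAt_fM hz).differentiableAt.differentiableWithinAt

theorem injOn_fM : InjOn fM (ball 0 1) := by
  intro z hz w hw h
  rw [mem_ball_zero_iff] at hz hw
  have hz' := norm_div_RR hz
  have hw' := norm_div_RR hw
  have h1 : Ff PP (xiM (z / RR)) = Ff PP (xiM (w / RR)) := sub_left_injective h
  have h2 := good_PP.inj (one_lt_norm_xiM hz').le (one_lt_norm_xiM hw').le h1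
  have h3 := xiM_inj hz' hw' h2
  have hR : (RR : ℂ) ≠ 0 := by exact_mod_cast RR_pos.ne'
  exact (div_left_inj' hR).mp h3

theorem fM_zero : fM 0 = 0 := by
  rw [fM, zero_div, xiM_zero, sub_self]

theorem deriv_fM_zero : deriv fM 0 = 1 := by
  have h := (hasDerivAt_fM (z := 0) (by simp)).deriv
  rw [h, zero_div, xiM_zero, sM_zero, vv_zero, rr_zero, q_at]
  have hR : (RR : ℂ) ≠ 0 := by exact_mod_cast RR_pos.ne'
  have h2 : (RR : ℂ) = qv * (637 / 765) := by rw [RR]; push_cast; rfl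
  have hq : (qv : ℂ) ≠ 0 := by
    intro h0; rw [h2, h0, zero_mul] at hR; exact hR rfl
  rw [h2]
  field_simp
  norm_num

theorem disjoint_image : Disjoint (fM '' ball 0 1 ∩ ball 0 1) Eset := by
  rw [Set.disjoint_left]
  rintro _ ⟨⟨z, hz, rfl⟩, -⟩ ⟨u, hu, huz⟩
  rw [mem_ball_zero_iff] at hz
  have hz' := norm_div_RR hz
  have hu1 := hu.1
  simp only [mem_preimage] at hu1
  apply good_PP.star (one_lt_norm_xiM hz') (norm_exp_I u.im) hu1.1.le hu1.2.le
  rw [Psi, fM, gam] at huz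
  linear_combination -huz

theorem area_le : (volume (fM '' ball 0 1 ∩ ball 0 1)).toReal ≤ 761426 / 10 ^ 6 * Real.pi := by
  have h1 : volume (fM '' ball 0 1 ∩ ball 0 1) + volume Eset ≤ ENNReal.ofReal Real.pi := by
    rw [← measure_union disjoint_image (good_PP.measurableSet_image _)]
    calc volume (fM '' ball 0 1 ∩ ball 0 1 ∪ Eset) ≤ volume (closedBall (0:ℂ) 1) := by
          apply measure_mono
          exact union_subset (inter_subset_right.trans ball_subset_closedBall) Eset_subset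
      _ = ENNReal.ofReal Real.pi := by
          rw [Complex.volume_closedBall, ← NNReal.coe_real_pi, ENNReal.ofReal_coe_nnreal]
          simp
  rw [volume_Eset] at h1
  have hfin : volume (fM '' ball 0 1 ∩ ball 0 1) ≠ ⊤ := by
    intro htop
    rw [htop, top_add] at h1
    exact absurd h1 (by simp)
  rw [← ENNReal.ofReal_toReal hfin, ← ENNReal.ofReal_add ENNReal.toReal_nonneg
    (by positivity)] at h1
  have h2 := (ENNReal.ofReal_le_ofReal_iff Real.pi_pos.le).mp h1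
  have hpi := Real.pi_pos
  nlinarith

/-- main theorem -/
theorem exists_small : ∃ f : ℂ → ℂ, DifferentiableOn ℂ f (ball 0 1) ∧ InjOn f (ball 0 1) ∧
    f 0 = 0 ∧ deriv f 0 = 1 ∧
    (volume (f '' ball 0 1 ∩ ball 0 1)).toReal ≤ 761426 / 10 ^ 6 * Real.pi :=
  ⟨fM, differentiableOn_fM, injOn_fM, fM_zero, deriv_fM_zero, area_le⟩

end Pool.Agent.Helper72.OA
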