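import Pool.Agent.Helper72.OA.Lists
import Pool.Agent.Helper72.OA.Area

/-!
The explicit polynomial and the certificates for the three sign conditions.
-/

open Complex Metric Set MeasureTheory

namespace Pool.Agent.Helper72.OA

/-- multiplication by `w^n` -/
def shiftL : ℕ → List ℤ → List ℤ
  | 0, l => l
  | n + 1, l => 0 :: shiftL n l

theorem ev_shiftL (n : ℕ) (l : List ℤ) (w : ℂ) : ev (shiftL n l) w = w ^ n * ev l w := by
  induction n with
  | zero => simp [shiftL]
  | succ n ih => simp only [shiftL, ev, ih]; push_cast; ring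

/-- integer coefficients of `w G(1/w)`, scaled by `10^9` -/
def gL : List ℤ :=
  [680492908, -522433859, -321131017, -181514248, -96418246, -52719079, -34113025,
   -26278508, -20654233, -14719778, -9408405, -5993148, -4469095, -3813431, -3079358,
   -2072219, -1167064, -708672, -652665, -686476, -569425, -314656, -92402, -23272, -79827,
   -150676, -157918, -106299, -45259, -9785]

/-- integer coefficients of `w (G(1/w) - c)`, scaled by `10^9`, `c = -960000000 / 10^9` -/
def pL : List ℤ :=
  [680492908, 437566141, -321131017, -181514248, -96418246, -52719079, -34113025,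
   -26278508, -20654233, -14719778, -9408405, -5993148, -4469095, -3813431, -3079358,
   -2072219, -1167064, -708672, -652665, -686476, -569425, -314656, -92402, -23272, -79827,
   -150676, -157918, -106299, -45259, -9785]

/-- certificate for `|G| ≤ 1 - 10^{-7}` -/
def h1 : List ℤ :=
  [12743374, 45663174, 98011972, 152451304, 182365976, 168450965, 113556631, 43185975,
   -10308367, -28377164, -16218915, 4840661, 15135829, 9820000, -1888357, -8142434,
   -5117345, 1801025, 5174538, 2787289, -1607560, -3276031, -1297270, 1435379, 1993832,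
   383250, -1125213, -958120, 143341, 522516]

/-- certificate for starlikeness -/
def h2 : List ℤ :=
  [386763991, 114192618, -160002894, 35221203, 57239973, 44593005, 52023453, 71750540,
   78510709, 64113658, 41764018, 28313331, 27715841, 30874187, 27881159, 17996543, 8313619,
   4992672, 7269654, 9516720, 7648206, 2716736, -1171407, -1378549, 1149364, 3547531,
   3955246, 2676304, 1121566, 232419]

/-- certificate for `Re p > 0` -/
def h3 : List ℤ :=
  [681596874, 383436242, -198902643, -114613675, -62493706, -34701534, -22066641,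
   -16491661, -12869555, -9362463, -6188148, -3992824, -2871095, -2350104, -1901992,
   -1342524, -812488, -496204, -406181, -400665, -343114, -214646, -89468, -35519, -51134,
   -84186, -89745, -63667, -29163, -7178]

def T1 : List ℤ := addL (shiftL 29 [999999900 ^ 2])
  (smulL (-1) (addL (mulL gL (rev gL)) (mulL h1 (rev h1))))

def T2 : List ℤ := addL (addL (mulL (qL pL) (rev pL)) (mulL pL (rev (qL pL))))
  (smulL (-2) (mulL h2 (rev h2)))

def T3 : List ℤ := addL (smulL (10 ^ 9) (addL (shiftL 29 pL) (rev pL)))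
  (smulL (-2) (mulL h3 (rev h3)))

theorem T1_pos : 0 < 2 * co T1 29 - norm1 T1 := by decide +kernel

theorem T2_pos : 0 < 2 * co T2 29 - norm1 T2 := by decide +kernel

theorem T3_pos : 0 < 2 * co T3 29 - norm1 T3 := by decide +kernel

theorem pL_eq : pL = addL gL [0, 960000000] := by decide +kernel

theorem len_g : gL.length = 29 + 1 := by decide +kernel
theorem len_p : pL.length = 29 + 1 := by decide +kernel
theorem len_q : (qL pL).length = 29 + 1 := by decide +kernel
theorem len_h1 : h1.length = 29 + 1 := by decide +kernel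
theorem len_h2 : h2.length = 29 + 1 := by decide +kernel
theorem len_h3 : h3.length = 29 + 1 := by decide +kernel

theorem cpow_mul {w : ℂ} (hw : ‖w‖ = 1) (n : ℕ) : (starRingEnd ℂ) w ^ n * w ^ n = 1 := by
  rw [← mul_pow, mul_comm, star_w hw, one_pow]

theorem mul_conj_re (z : ℂ) : (z * (starRingEnd ℂ) z).re = ‖z‖ ^ 2 := by
  rw [Complex.mul_conj, Complex.normSq_eq_norm_sq, Complex.ofReal_re]

/-- `|G| ≤ 1 - 10^{-7}` on the circle -/
theorem bound_g {w : ℂ} (hw : ‖w‖ = 1) : ‖ev gL w‖ ≤ 999999900 := by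
  have h := re_lower T1 29 hw
  have h0 : (0:ℝ) < ((2 * co T1 29 - norm1 T1 : ℤ) : ℝ) := by exact_mod_cast T1_pos
  have h4 : (starRingEnd ℂ) w ^ 29 * ev T1 w = 999999900 ^ 2 -
      (ev gL w * (starRingEnd ℂ) (ev gL w) + ev h1 w * (starRingEnd ℂ) (ev h1 w)) := by
    rw [← mul_rev gL gL 29 len_g hw, ← mul_rev h1 h1 29 len_h1 hw]
    simp only [T1, ev_addL, ev_smulL, ev_shiftL, ev]
    push_cast
    have := cpow_mul hw 29
    linear_combination (999999900 ^ 2 : ℂ) * this
  rw [h4, Complex.sub_re, Complex.add_re, mul_conj_re, mul_conj_re] at h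
  have h5 : ((999999900 ^ 2 : ℂ)).re = 999999900 ^ 2 := by
    have : ((999999900 ^ 2 : ℂ)) = ((999999900 ^ 2 : ℝ) : ℂ) := by push_cast; rfl
    rw [this, Complex.ofReal_re]
  rw [h5] at h
  have h6 : ‖ev gL w‖ ^ 2 ≤ 999999900 ^ 2 := by
    have := sq_nonneg ‖ev h1 w‖
    linarith
  exact (pow_le_pow_iff_left₀ (norm_nonneg _) (by norm_num) two_ne_zero).mp h6

theorem re_two (z : ℂ) : (z + (starRingEnd ℂ) z).re = 2 * z.re := by
  rw [Complex.add_re, Complex.conj_re]; ring

/-- starlikeness on the circle -/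
theorem pos_q {w : ℂ} (hw : ‖w‖ = 1) :
    0 < (ev (qL pL) w * (starRingEnd ℂ) (ev pL w)).re := by
  have h := re_lower T2 29 hw
  have h0 : (0:ℝ) < ((2 * co T2 29 - norm1 T2 : ℤ) : ℝ) := by exact_mod_cast T2_pos
  have h4 : (starRingEnd ℂ) w ^ 29 * ev T2 w =
      (ev (qL pL) w * (starRingEnd ℂ) (ev pL w) +
        (starRingEnd ℂ) (ev (qL pL) w * (starRingEnd ℂ) (ev pL w))) -
      ((2:ℝ):ℂ) * (ev h2 w * (starRingEnd ℂ) (ev h2 w)) := by
    have e1 : (starRingEnd ℂ) (ev (qL pL) w * (starRingEnd ℂ) (ev pL w)) =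
        ev pL w * (starRingEnd ℂ) (ev (qL pL) w) := by
      rw [map_mul, Complex.conj_conj]; ring
    rw [e1, ← mul_rev (qL pL) pL 29 len_p hw, ← mul_rev pL (qL pL) 29 len_q hw,
      ← mul_rev h2 h2 29 len_h2 hw]
    simp only [T2, ev_addL, ev_smulL]
    push_cast
    ring
  rw [h4, Complex.sub_re, re_two, Complex.re_ofReal_mul, mul_conj_re] at h
  have := sq_nonneg ‖ev h2 w‖
  linarith

/-- `Re p > 0` on the circle -/
theorem pos_p {w : ℂ} (hw : ‖w‖ = 1) : 0 < (ev pL w).re := by
  have h := re_lower T3 29 hw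
  have h0 : (0:ℝ) < ((2 * co T3 29 - norm1 T3 : ℤ) : ℝ) := by exact_mod_cast T3_pos
  have e2 : (starRingEnd ℂ) w ^ 29 * ev (rev pL) w = (starRingEnd ℂ) (ev pL w) := by
    have h1 := mul_rev [1] pL 29 len_p hw
    simpa [ev, ev_mulL] using h1
  have h4 : (starRingEnd ℂ) w ^ 29 * ev T3 w =
      ((10 ^ 9 : ℝ) : ℂ) * (ev pL w + (starRingEnd ℂ) (ev pL w)) -
      ((2:ℝ):ℂ) * (ev h3 w * (starRingEnd ℂ) (ev h3 w)) := by
    rw [← e2, ← mul_rev h3 h3 29 len_h3 hw]
    simp only [T3, ev_addL, ev_smulL, ev_shiftL]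
    push_cast
    have := cpow_mul hw 29
    linear_combination (10 ^ 9 * ev pL w : ℂ) * this
  rw [h4, Complex.sub_re, Complex.re_ofReal_mul, re_two, Complex.re_ofReal_mul, mul_conj_re] at h
  have := sq_nonneg ‖ev h3 w‖
  nlinarith

/-- the polynomial `w (G(1/w) - c)` -/
noncomputable def PP (w : ℂ) : ℂ := ev pL w / 10 ^ 9

/-- its derivative -/
noncomputable def PP' (w : ℂ) : ℂ := ev (dL pL) w / 10 ^ 9

theorem PP_q (w : ℂ) : PP w - w * PP' w = ev (qL pL) w / 10 ^ 9 := by
  rw [PP, PP', ev_qL]; ring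

theorem good_PP : Good PP PP' where
  hp w := (hasDerivAt_ev pL w).div_const _
  hp' w := ((hasDerivAt_ev (dL pL) w).div_const _).differentiableAt
  h3 w hw := by
    have h := pos_p hw
    have : PP w = ((1 / 10 ^ 9 : ℝ) : ℂ) * ev pL w := by rw [PP]; push_cast; ring
    rw [this, Complex.re_ofReal_mul]
    positivity
  h2 w hw := by
    have h := pos_q hw
    rw [PP_q]
    have : ev (qL pL) w / 10 ^ 9 * (starRingEnd ℂ) (PP w) = ((1 / 10 ^ 18 : ℝ) : ℂ) *
        (ev (qL pL) w * (starRingEnd ℂ) (ev pL w)) := by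
      rw [PP, map_div₀, map_pow]
      have : (starRingEnd ℂ) (10:ℂ) = 10 := map_ofNat (starRingEnd ℂ) 10
      rw [this]; push_cast; ring
    rw [this, Complex.re_ofReal_mul]
    positivity

/-- integer-indexed coefficient -/
def coZ : List ℤ → ℤ → ℤ
  | [], _ => 0
  | a :: l, k => (if k = 0 then a else 0) + coZ l (k - 1)

theorem int_exp (k : ℤ) : ∫ y in (-Real.pi)..Real.pi, exp (k * (y * I)) =
    if k = 0 then (2 * Real.pi : ℂ) else 0 := by
  split_ifs with h
  · rw [h]
    simp
    ring
  · have hk : (k : ℂ) * I ≠ 0 := mul_ne_zero (by exact_mod_cast h) I_ne_zero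
    have h1 : ∀ y : ℝ, exp (k * (y * I)) = exp ((k * I) * y) := by
      intro y; congr 1; ring
    simp only [h1]
    rw [integral_exp_mul_complex hk]
    have h2 : exp (k * I * (Real.pi : ℝ)) = exp (k * I * ((-Real.pi : ℝ) : ℂ)) := by
      rw [Complex.exp_eq_exp_iff_exists_int]
      exact ⟨k, by push_cast; ring⟩
    rw [h2, sub_self, zero_div]

theorem int_ev (l : List ℤ) (k : ℤ) :
    ∫ y in (-Real.pi)..Real.pi, exp (k * (y * I)) * ev l (exp (-(y * I))) =
      2 * Real.pi * (coZ l k : ℂ) := by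
  have hc : ∀ m : List ℤ, Continuous (fun y : ℝ => ev m (exp (-((y:ℂ) * I)))) := by
    intro m
    have h1 : Continuous (ev m) := by
      have : Differentiable ℂ (ev m) := fun w => (hasDerivAt_ev m w).differentiableAt
      exact this.continuous
    exact h1.comp (by fun_prop)
  induction l generalizing k with
  | nil => simp [ev, coZ]
  | cons a l ih =>
    have h1 : ∀ y : ℝ, exp (k * (y * I)) * ev (a :: l) (exp (-(y * I))) =
        a * exp (k * (y * I)) + exp (((k - 1 : ℤ) : ℂ) * (y * I)) * ev l (exp (-(y * I))) := by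
      intro y
      have : exp (((k - 1 : ℤ) : ℂ) * (y * I)) = exp (k * (y * I)) * exp (-(y * I)) := by
        rw [← Complex.exp_add]; congr 1; push_cast; ring
      rw [this, ev]; ring
    simp only [h1]
    rw [intervalIntegral.integral_add, ih, intervalIntegral.integral_const_mul, int_exp]
    · simp only [coZ]
      split_ifs
      · push_cast; ring
      · push_cast; ring
    · apply Continuous.intervalIntegrable
      fun_prop
    · apply Continuous.intervalIntegrable
      have := hc l
      have h2 : Continuous (fun y : ℝ => exp (((k - 1 : ℤ) : ℂ) * (y * I))) := by fun_prop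
      exact h2.mul this

theorem coZ_val : coZ (mulL (qL pL) (rev pL)) 29 = 238574948296592885 := by decide +kernel

theorem int_dens : ∫ y in (-Real.pi)..Real.pi, dens PP PP' y =
    2 * Real.pi * (238574948296592885 / 10 ^ 18) := by
  have h1 : ∀ y : ℝ, dens PP PP' y = (1 / 10 ^ 18 : ℝ) *
      (exp ((29 : ℤ) * (y * I)) * ev (mulL (qL pL) (rev pL)) (exp (-(y * I)))).re := by
    intro y
    have hw := norm_exp_neg_I y
    have e1 := mul_rev (qL pL) pL 29 len_p hw
    have e2 : (starRingEnd ℂ) (exp (-((y:ℂ) * I))) ^ 29 = exp ((29 : ℤ) * (y * I)) := by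
      rw [← Complex.exp_conj, ← Complex.exp_nat_mul]
      congr 1
      simp
    rw [e2] at e1
    rw [e1, dens, PP_q]
    have : ev (qL pL) (exp (-((y:ℂ) * I))) / 10 ^ 9 * (starRingEnd ℂ) (PP (exp (-((y:ℂ) * I)))) =
        ((1 / 10 ^ 18 : ℝ) : ℂ) *
        (ev (qL pL) (exp (-((y:ℂ) * I))) * (starRingEnd ℂ) (ev pL (exp (-((y:ℂ) * I))))) := by
      rw [PP, map_div₀, map_pow]
      have : (starRingEnd ℂ) (10:ℂ) = 10 := map_ofNat (starRingEnd ℂ) 10
      rw [this]; push_cast; ring
    rw [this, Complex.re_ofReal_mul]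
  simp only [h1]
  rw [intervalIntegral.integral_const_mul]
  have h2 := int_ev (mulL (qL pL) (rev pL)) 29
  rw [coZ_val] at h2
  have hcont : Continuous (fun y : ℝ => exp (((29 : ℤ) : ℂ) * (y * I)) *
      ev (mulL (qL pL) (rev pL)) (exp (-(y * I)))) := by
    have h1 : Continuous (ev (mulL (qL pL) (rev pL))) := by
      have : Differentiable ℂ (ev (mulL (qL pL) (rev pL))) :=
        fun w => (hasDerivAt_ev _ w).differentiableAt
      exact this.continuous
    have h3 : Continuous (fun y : ℝ => exp (((29 : ℤ) : ℂ) * (y * I))) := by fun_prop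
    exact h3.mul (h1.comp (by fun_prop))
  have h3 : ∫ y in (-Real.pi)..Real.pi, (exp (((29 : ℤ) : ℂ) * (y * I)) *
      ev (mulL (qL pL) (rev pL)) (exp (-(y * I)))).re =
      (∫ y in (-Real.pi)..Real.pi, exp (((29 : ℤ) : ℂ) * (y * I)) *
      ev (mulL (qL pL) (rev pL)) (exp (-(y * I)))).re := by
    exact Complex.reCLM.intervalIntegral_comp_comm (hcont.intervalIntegrable _ _)
  rw [h3, h2]
  have h4 : (2 * (Real.pi : ℂ) * ((238574948296592885 : ℤ) : ℂ)) =
      ((2 * Real.pi * 238574948296592885 : ℝ) : ℂ) := by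
    push_cast; rfl
  rw [h4, Complex.ofReal_re]
  ring

end Pool.Agent.Helper72.OA
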